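import Mathlib
import Pool.Agent.H15.KneB

set_option autoImplicit false

namespace Pool.Agent.Results.MP_25b479_co.Value

open Pool.Agent.H15.Kne Set Pointwise

/-- No solution of `a + b + c = 0` or `a + b = c` in `A`. -/
def Free {G : Type} [AddCommGroup G] (A : Set G) : Prop :=
  ∀ a ∈ A, ∀ b ∈ A, ∀ c ∈ A, a + b + c ≠ 0 ∧ a + b ≠ c

/-- The largest size of a signed zero-3-sum-free set. -/
noncomputable def tau (G : Type) [AddCommGroup G] : ℕ :=
  sSup {k | ∃ A : Set G, Free A ∧ A.ncard = k}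

variable {G : Type} [AddCommGroup G] [Finite G]

lemma up {A : Set G} (h : Free A) : 3 * A.ncard ≤ Nat.card G ∨
    ∃ q, q.Prime ∧ q ∣ Nat.card G ∧ q % 3 = 2 ∧ 3 * q * A.ncard ≤ (q + 1) * Nat.card G := by
  rcases A.eq_empty_or_nonempty with rfl | ne
  · simp
  obtain ⟨c, d, k, l, c0, e, a1, -, a2, a3, a4⟩ := num A A ne ne
  have d2 : Disjoint (A + st (A + A)) (A + A) := disjoint_left.2 (by
    rintro _ ⟨x, a, g, hg, rfl⟩ m
    obtain ⟨y, b, z, c, m⟩ := (hg x).1 (show g + x ∈ A + A from add_comm x g ▸ m)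
    exact (h y b z c x a).2 m)
  have u := ncard_le_ncard (subset_univ (A + (st (A + A) : Set G) ∪ (A + A)))
  rw [ncard_union_eq d2, ncard_univ] at u
  refine or_iff_not_imp_left.2 fun n => ?_
  have f1 : d < 3 * k := lt_of_mul_lt_mul_left (a := c) (by nlinarith) c0.le
  have f2 : 3 * k < d + 2 := lt_of_mul_lt_mul_left (a := c) (by nlinarith) c0.le
  obtain ⟨q, q1, q2, q3⟩ := pf3 d (by omega)
  have := Nat.mul_le_mul_left c (Nat.le_of_dvd (by omega) q2)
  exact ⟨q, q1, e ▸ q2.mul_left _, q3, by nlinarith⟩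

lemma ev {A : Set G} (h : Free A) (o : Nat.card G % 2 = 1) :
    ∃ B : Set G, Free B ∧ A.ncard ≤ B.ncard ∧ Even B.ncard := by
  obtain ⟨f, hf⟩ := exists_injective_nat G
  let P := {x ∈ A ∪ -A | f x < f (-x)}
  have e : A ∪ -A = P ∪ -P := by
    ext x
    refine ⟨fun hx => ?_, fun hx => hx.elim (·.1) fun k => by simpa [or_comm] using k.1⟩
    rcases lt_trichotomy (f x) (f (-x)) with k | k | k
    · exact .inl ⟨hx, k⟩
    · have z : x ≠ 0 := by
        rintro rfl
        have : (0 : G) ∈ A := by simpa using hx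
        exact (h 0 this 0 this 0 this).2 (add_zero 0)
      have := addOrderOf_dvd_natCard x
      rw [addOrderOf_eq_prime (p := 2) (by rw [two_nsmul, add_eq_zero_iff_eq_neg.2 (hf k)]) z] at this
      omega
    · exact .inr ⟨by simpa [or_comm] using hx, by simpa⟩
  refine ⟨A ∪ -A, ?_, ncard_le_ncard subset_union_left, ?_⟩
  · rintro a (x | x) b (y | y) c (z | z) <;> refine ⟨fun k => ?_, fun k => ?_⟩
    exacts [(h _ x _ y _ z).1 k, (h _ x _ y _ z).2 k,
      (h _ x _ y _ z).2 (eq_neg_of_add_eq_zero_left k), (h _ x _ y _ z).1 (by simp [k]),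
      (h _ x _ z _ y).2 (by rw [← sub_eq_zero, ← k]; abel), (h _ z _ y _ x).2 (by simp [← k]),
      (h _ y _ z _ x).2 (by rw [← sub_eq_zero, ← neg_eq_zero, ← k]; abel),
      (h _ x _ z _ y).2 (by rw [← k]; abel),
      (h _ y _ z _ x).2 (by rw [← sub_eq_zero, ← k]; abel), (h _ z _ x _ y).2 (by rw [← k]; abel),
      (h _ x _ z _ y).2 (by rw [← sub_eq_zero, ← neg_eq_zero, ← k]; abel),
      (h _ y _ z _ x).2 (by rw [← k]; abel),
      (h _ x _ y _ z).2 (by rw [← sub_eq_zero, ← neg_eq_zero, ← k]; abel),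
      (h _ x _ y _ z).1 (by rw [← k]; abel),
      (h _ x _ y _ z).1 (by rw [← neg_eq_zero, ← k]; abel), (h _ x _ y _ z).2 (by rw [← k]; abel)]
  · rw [e, ncard_union_eq (disjoint_left.2 fun x a b => lt_asymm a.2 (by simpa using b.2)),
      ncard_neg]
    exact ⟨_, rfl⟩

omit [Finite G] in
lemma low {d : ℕ} [NeZero d] (φ : G →+ ZMod d) (h : Function.Surjective φ) :
    ∃ A : Set G, Free A ∧ d * A.ncard = ((2 * d + 2) / 3 - (d / 3 + 1)) * Nat.card G := by
  obtain ⟨p1, p2⟩ := pre φ h {x | d / 3 + 1 ≤ x.val ∧ x.val < (2 * d + 2) / 3}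
  refine ⟨_, fun a ha b hb c hc => ?_, by rw [p1, p2, ival (by omega), Nat.card_zmod]; ring⟩
  have := ha.1; have := hb.1; have := hc.1; have := ha.2; have := hb.2; have := hc.2
  refine ⟨fun n => ?_, fun n => ?_⟩
  · have : d ∣ (φ a).val + (φ b).val + (φ c).val := by
      rw [← ZMod.natCast_eq_zero_iff]
      simpa using congrArg φ n
    exact Nat.not_dvd_of_pos_of_lt (n := (φ a).val + (φ b).val + (φ c).val - d) (by omega)
      (by omega) (Nat.dvd_sub this dvd_rfl)
  · have : d ∣ (φ a).val + (φ b).val - (φ c).val := by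
      rw [← ZMod.natCast_eq_zero_iff, Nat.cast_sub (by omega)]
      simpa [sub_eq_zero] using congrArg φ n
    exact Nat.not_dvd_of_pos_of_lt (by omega) (by omega) this

/-- The maximal size of a signed zero-3-sum-free set in a cyclic group. -/
theorem result (n : ℕ) (hn : 0 < n) :
    (∀ p, IsLeast {p | p.Prime ∧ p ∣ n ∧ p % 3 = 2} p → (tau (ZMod n) : ℚ) = (1 + 1 / p) * n / 3) ∧
    ((∀ p, p.Prime → p ∣ n → p % 3 ≠ 2) → tau (ZMod n) = (n - 1) / 3) := by
  have := NeZero.mk hn.ne'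
  have b : BddAbove {k | ∃ A : Set (ZMod n), Free A ∧ A.ncard = k} :=
    ⟨_, by rintro _ ⟨A, -, rfl⟩; exact ncard_le_card A⟩
  obtain ⟨A, hA, e⟩ := Nat.sSup_mem (s := {k | ∃ A : Set (ZMod n), Free A ∧ A.ncard = k})
    ⟨0, ∅, by simp [Free], by simp⟩ b
  have l : ∀ B : Set (ZMod n), Free B → B.ncard ≤ tau (ZMod n) := fun B h => le_csSup b ⟨B, h, rfl⟩
  have e : A.ncard = tau (ZMod n) := e
  generalize tau (ZMod n) = m at *
  refine ⟨fun p ⟨⟨p1, p2, p3⟩, p4⟩ => ?_, fun h => ?_⟩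
  · have u := up hA
    have := NeZero.mk p1.ne_zero
    obtain ⟨B, b1, b2⟩ := low (ZMod.castHom p2 (ZMod p)).toAddMonoidHom (ZMod.castHom_surjective p2)
    rw [Nat.card_zmod, e] at *
    have b3 := l B b1
    have b4 : 3 * ((2 * p + 2) / 3 - (p / 3 + 1)) = p + 1 := by omega
    have : 3 * p * m = (p + 1) * n := le_antisymm (by
      rcases u with u | ⟨q, q1, q2, q3, u⟩
      · nlinarith
      · obtain ⟨r, rfl⟩ := Nat.exists_eq_add_of_le (p4 ⟨q1, q2, q3⟩)
        refine le_of_mul_le_mul_left ?_ q1.pos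
        nlinarith [Nat.zero_le (r * n)]) (by rw [← b4]; nlinarith)
    have p0 : (p : ℚ) ≠ 0 := by exact_mod_cast p1.ne_zero
    field_simp
    exact_mod_cast (by linarith : m * p * 3 = (p + 1) * n)
  · have o : n % 2 = 1 := by_contra fun k => h 2 Nat.prime_two (by omega) rfl
    have t : n % 3 ≠ 2 := fun k => let ⟨p, a, b, c⟩ := pf3 n k; h p a b c
    obtain ⟨B, b1, b2, r, b3⟩ := ev hA (by rwa [Nat.card_zmod])
    have u := (up b1).resolve_right fun ⟨q, q1, q2, q3, _⟩ => h q q1 (by simpa using q2) q3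
    obtain ⟨C, c1, c2⟩ := low (.id (ZMod n)) Function.surjective_id
    rw [Nat.card_zmod] at u
    rw [Nat.card_zmod, mul_comm] at c2
    have := Nat.eq_of_mul_eq_mul_right hn c2
    have := l C c1
    omega

end Pool.Agent.Results.MP_25b479_co.Value
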